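import Pool.Agent.Helper20.QD.St3

/-!
# Project QD, part B (MP_d112a4_gt): module LMX, matrix identities
-/

open Filter Topology Matrix Set Metric
open scoped ComplexConjugate ComplexOrder

namespace Pool.Agent.Helper99.QD

open Pool.Agent.Helper35.PM Pool.Agent.Helper20.QD

/-- the form of positive semidefinite matrices -/
theorem ps_form {P : Mat} (h : P.PosSemidef) : ∃ (a b : ℝ) (z : ℂ), P = !![(a : ℂ), z; conj z, (b : ℂ)] ∧
    0 ≤ a ∧ 0 ≤ b ∧ ‖z‖ ^ 2 ≤ a * b := by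
  have h00 : 0 ≤ P 0 0 := h.diag_nonneg
  have h11 : 0 ≤ P 1 1 := h.diag_nonneg
  have hdet := h.det_nonneg
  have h10 : P 1 0 = conj (P 0 1) := (h.isHermitian.apply 1 0).symm
  obtain ⟨a0, a1⟩ := Complex.nonneg_iff.1 h00
  obtain ⟨b0, b1⟩ := Complex.nonneg_iff.1 h11
  have ha : P 0 0 = ((P 0 0).re : ℂ) := Complex.ext rfl (by simp [← a1])
  have hb : P 1 1 = ((P 1 1).re : ℂ) := Complex.ext rfl (by simp [← b1])
  refine ⟨(P 0 0).re, (P 1 1).re, P 0 1, ?_, a0, b0, ?_⟩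
  · ext i j
    fin_cases i <;> fin_cases j
    · exact ha
    · rfl
    · exact h10
    · exact hb
  · rw [Matrix.det_fin_two, h10, Complex.mul_conj', ha, hb] at hdet
    have h2 : (0 : ℂ) ≤ (((P 0 0).re * (P 1 1).re - ‖P 0 1‖ ^ 2 : ℝ) : ℂ) := by
      push_cast
      exact hdet
    have h3 := (Complex.nonneg_iff.1 h2).1
    rw [Complex.ofReal_re] at h3
    linarith

theorem trace_form {a b : ℝ} {z : ℂ} : (!![(a : ℂ), z; conj z, (b : ℂ)] : Mat).trace = ((a + b : ℝ) : ℂ) := by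
  rw [Matrix.trace_fin_two]
  simp

/-- the distance of two positive semidefinite matrices of trace one -/
theorem fr_le {a b a' b' : ℝ} {z z' : ℂ} (h1 : a + b = 1) (h2 : a' + b' = 1) (h3 : ‖z‖ ^ 2 ≤ a * b)
    (h4 : ‖z'‖ ^ 2 ≤ a' * b') :
    fr !![(a : ℂ), z; conj z, (b : ℂ)] !![(a' : ℂ), z'; conj z', (b' : ℂ)] ≤
      2 * (1 - ((!![(a : ℂ), z; conj z, (b : ℂ)] : Mat) * !![(a' : ℂ), z'; conj z', (b' : ℂ)]).trace.re) := by
  have e1 : ‖z‖ ^ 2 = z.re ^ 2 + z.im ^ 2 := by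
    rw [Complex.sq_norm, Complex.normSq_apply]; ring
  have e2 : ‖z'‖ ^ 2 = z'.re ^ 2 + z'.im ^ 2 := by
    rw [Complex.sq_norm, Complex.normSq_apply]; ring
  rw [e1] at h3
  rw [e2] at h4
  unfold fr hs
  simp only [Fin.sum_univ_two, Matrix.sub_apply, Matrix.trace_fin_two, Matrix.mul_apply, Matrix.of_apply,
    Matrix.cons_val', Matrix.cons_val_zero, Matrix.cons_val_one, Matrix.cons_val_fin_one, Complex.sq_norm,
    Complex.normSq_apply, Complex.add_re, Complex.sub_re, Complex.sub_im, Complex.mul_re, Complex.conj_re,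
    Complex.conj_im, Complex.ofReal_re, Complex.ofReal_im]
  have e3 : b = 1 - a := by linarith
  have e4 : b' = 1 - a' := by linarith
  subst e3 e4
  nlinarith

theorem trace_AA (M : Mat) : (M * Mᴴ).trace = ((hs M : ℝ) : ℂ) := by
  unfold hs
  simp only [Fin.sum_univ_two, Matrix.trace_fin_two, Matrix.mul_apply, Matrix.conjTranspose_apply,
    Complex.star_def, Complex.mul_conj']
  push_cast
  ring

theorem id_one (M P : Mat) : (M * Mᴴ).trace * (M * P * Mᴴ).trace - (M * Mᴴ * (M * P * Mᴴ)).trace =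
    M.det * star M.det * P.trace := by
  simp only [Fin.sum_univ_two, Matrix.trace_fin_two, Matrix.mul_apply, Matrix.conjTranspose_apply,
    Matrix.det_fin_two, star_sub, star_mul']
  ring

theorem id_two (M Q : Mat) : (M.adjugate * M.adjugateᴴ * Q).trace + (M * Q * Mᴴ).trace =
    (M * Mᴴ).trace * Q.trace := by
  rw [Matrix.adjugate_fin_two]
  simp only [Fin.sum_univ_two, Matrix.trace_fin_two, Matrix.mul_apply, Matrix.conjTranspose_apply,
    Matrix.of_apply, Matrix.cons_val', Matrix.cons_val_zero, Matrix.cons_val_one, Matrix.cons_val_fin_one,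
    star_neg]
  ring

theorem smul_form (c a b : ℝ) (z : ℂ) : (c : ℂ) • (!![(a : ℂ), z; conj z, (b : ℂ)] : Mat) =
    !![((c * a : ℝ) : ℂ), (c : ℂ) * z; conj ((c : ℂ) * z), ((c * b : ℝ) : ℂ)] := by
  ext i j
  fin_cases i <;> fin_cases j <;> simp

theorem hs_ge (A : SL) : 2 ≤ hs (A : Mat) := by
  have hdet := A.det_coe
  rw [Matrix.det_fin_two] at hdet
  have h1 : ‖(A : Mat) 0 0 * (A : Mat) 1 1 - (A : Mat) 0 1 * (A : Mat) 1 0‖ = 1 := by
    rw [hdet, norm_one]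
  have h2 := norm_sub_le ((A : Mat) 0 0 * (A : Mat) 1 1) ((A : Mat) 0 1 * (A : Mat) 1 0)
  rw [h1, norm_mul, norm_mul] at h2
  unfold hs
  simp only [Fin.sum_univ_two]
  nlinarith [sq_nonneg (‖(A : Mat) 0 0‖ - ‖(A : Mat) 1 1‖), sq_nonneg (‖(A : Mat) 0 1‖ - ‖(A : Mat) 1 0‖)]

theorem cs2 (x y u v : ℂ) : ‖x * u + y * v‖ ^ 2 ≤ (‖x‖ ^ 2 + ‖y‖ ^ 2) * (‖u‖ ^ 2 + ‖v‖ ^ 2) := by
  have h1 : ‖x * u + y * v‖ ≤ ‖x‖ * ‖u‖ + ‖y‖ * ‖v‖ := by
    refine (norm_add_le _ _).trans ?_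
    rw [norm_mul, norm_mul]
  have h2 : ‖x * u + y * v‖ ^ 2 ≤ (‖x‖ * ‖u‖ + ‖y‖ * ‖v‖) ^ 2 := by gcongr
  nlinarith [sq_nonneg (‖x‖ * ‖v‖ - ‖y‖ * ‖u‖)]

theorem hs_mul (M N : Mat) : hs (M * N) ≤ hs M * hs N := by
  unfold hs
  simp only [Fin.sum_univ_two, Matrix.mul_apply]
  have h1 := cs2 (M 0 0) (M 0 1) (N 0 0) (N 1 0)
  have h2 := cs2 (M 0 0) (M 0 1) (N 0 1) (N 1 1)
  have h3 := cs2 (M 1 0) (M 1 1) (N 0 0) (N 1 0)
  have h4 := cs2 (M 1 0) (M 1 1) (N 0 1) (N 1 1)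
  nlinarith

theorem hs_inv (A : SL) : hs ((A⁻¹ : SL) : Mat) = hs (A : Mat) := by
  rw [Matrix.SpecialLinearGroup.coe_inv, Matrix.adjugate_fin_two]
  unfold hs
  simp only [Fin.sum_univ_two, Matrix.of_apply, Matrix.cons_val', Matrix.cons_val_zero, Matrix.cons_val_one,
    Matrix.cons_val_fin_one, norm_neg]
  ring

/-- a positive semidefinite matrix with positive trace, normalised -/
theorem density_form {P : Mat} (h : P.PosSemidef) {t : ℝ} (ht : 0 < t) (hP : P.trace = (t : ℂ)) :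
    ∃ (a b : ℝ) (z : ℂ), density P = !![(a : ℂ), z; conj z, (b : ℂ)] ∧ a + b = 1 ∧ ‖z‖ ^ 2 ≤ a * b := by
  obtain ⟨a, b, z, h1, h2, h3, h4⟩ := ps_form h
  refine ⟨t⁻¹ * a, t⁻¹ * b, ((t⁻¹ : ℝ) : ℂ) * z, ?_, ?_, ?_⟩
  · unfold density
    rw [hP, ← Complex.ofReal_inv]
    conv_lhs => rw [h1]
    exact smul_form _ _ _ _
  · rw [h1, trace_form] at hP
    have h5 : a + b = t := by exact_mod_cast hP
    rw [← mul_add, h5, inv_mul_cancel₀ ht.ne']
  · rw [norm_mul, Complex.norm_real, mul_pow, Real.norm_of_nonneg (inv_nonneg.2 ht.le)]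
    calc t⁻¹ ^ 2 * ‖z‖ ^ 2 ≤ t⁻¹ ^ 2 * (a * b) := by gcongr
      _ = t⁻¹ * a * (t⁻¹ * b) := by ring

theorem trace_pos (A : SL) {P : Mat} (h : P.PosSemidef) (hP : P.trace = 1) :
    ∃ t : ℝ, 0 < t ∧ ((A : Mat) * P * (A : Mat)ᴴ).trace = (t : ℂ) := by
  have hY := h.mul_mul_conjTranspose_same (A : Mat)
  obtain ⟨a, b, z, h1, h2, h3, h4⟩ := ps_form hY
  refine ⟨a + b, ?_, by rw [h1, trace_form]⟩
  by_contra hcon
  push Not at hcon
  have ha : a = 0 := by linarith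
  have hb : b = 0 := by linarith
  have hz : z = 0 := by
    rw [ha, zero_mul] at h4
    have h5 : ‖z‖ = 0 := by nlinarith [norm_nonneg z]
    exact norm_eq_zero.1 h5
  have hid := id_one (A : Mat) P
  rw [A.det_coe, star_one, hP, h1, ha, hb, hz] at hid
  have h0 : (!![((0 : ℝ) : ℂ), 0; conj 0, ((0 : ℝ) : ℂ)] : Mat) = 0 := by
    ext i j
    fin_cases i <;> fin_cases j <;> simp
  rw [h0, Matrix.mul_zero, Matrix.trace_zero, mul_zero, sub_zero, mul_one, mul_one] at hid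
  exact zero_ne_one hid

theorem gen (A : SL) {P : Mat} (h : P.PosSemidef) (hP : P.trace = 1) :
    0 < ((A : Mat) * P * (A : Mat)ᴴ).trace.re ∧ fr (density ((A : Mat) * (A : Mat)ᴴ)) (act A P) ≤
      2 / (hs (A : Mat) * ((A : Mat) * P * (A : Mat)ᴴ).trace.re) := by
  obtain ⟨t, ht, hY⟩ := trace_pos A h hP
  have hs0 : 0 < hs (A : Mat) := by linarith [hs_ge A]
  have hX := Matrix.posSemidef_self_mul_conjTranspose (A : Mat)
  obtain ⟨a, b, z, x1, x2, x3⟩ := density_form hX hs0 (trace_AA _)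
  obtain ⟨a', b', z', y1, y2, y3⟩ := density_form (h.mul_mul_conjTranspose_same (A : Mat)) ht hY
  have h1 := fr_le x2 y2 x3 y3
  rw [← x1, ← y1] at h1
  have hid := id_one (A : Mat) P
  rw [A.det_coe, star_one, hP, trace_AA, hY, mul_one, mul_one] at hid
  have h2 : (density ((A : Mat) * (A : Mat)ᴴ) * density ((A : Mat) * P * (A : Mat)ᴴ)).trace.re =
      (hs (A : Mat) * t - 1) / (hs (A : Mat) * t) := by
    unfold density
    rw [trace_AA, hY, Matrix.smul_mul, Matrix.mul_smul, Matrix.trace_smul, Matrix.trace_smul, smul_eq_mul,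
      smul_eq_mul]
    have h3 : ((A : Mat) * (A : Mat)ᴴ * ((A : Mat) * P * (A : Mat)ᴴ)).trace =
        ((hs (A : Mat) * t - 1 : ℝ) : ℂ) := by
      push_cast
      linear_combination -hid
    rw [h3, ← Complex.ofReal_inv, ← Complex.ofReal_inv, ← Complex.ofReal_mul, ← Complex.ofReal_mul,
      Complex.ofReal_re]
    field_simp
  refine ⟨by rw [hY, Complex.ofReal_re]; exact ht, ?_⟩
  rw [hY, Complex.ofReal_re]
  change fr _ (density ((A : Mat) * P * (A : Mat)ᴴ)) ≤ _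
  refine h1.trans (le_of_eq ?_)
  rw [h2]
  field_simp
  ring

theorem hLMX : StLMX := by
  refine ⟨hs_ge, fun A B => ?_, hs_inv, fun A => ?_, ?_, ?_⟩
  · rw [Matrix.SpecialLinearGroup.coe_mul]
    exact hs_mul _ _
  · have hs0 : 0 < hs (A : Mat) := by linarith [hs_ge A]
    have hsc : ((hs (A : Mat) : ℝ) : ℂ) ≠ 0 := by exact_mod_cast hs0.ne'
    refine ⟨?_, ?_, ?_⟩
    · unfold density
      rw [trace_AA]
      have h1 : ((A : Mat) * (A : Mat)ᴴ).PosDef := by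
        apply Matrix.PosDef.mul_conjTranspose_self
        apply Matrix.vecMul_injective_of_isUnit
        rw [Matrix.isUnit_iff_isUnit_det, A.det_coe]
        exact isUnit_one
      have h2 : (0 : ℂ) < ((hs (A : Mat) : ℝ) : ℂ)⁻¹ := by
        rw [← Complex.ofReal_inv]
        exact Complex.zero_lt_real.2 (inv_pos.2 hs0)
      exact h1.smul h2
    · unfold density
      rw [trace_AA, Matrix.trace_smul, trace_AA, smul_eq_mul, inv_mul_cancel₀ hsc]
    · unfold density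
      rw [trace_AA, Matrix.det_smul, Matrix.det_mul, Matrix.det_conjTranspose, A.det_coe, star_one, mul_one,
        mul_one, Fintype.card_fin]
      push_cast
      rw [one_div, inv_pow]
  · intro A Q hQ
    obtain ⟨q1, q2, q3⟩ := hQ
    obtain ⟨g1, g2⟩ := gen A q1 q2
    refine ⟨g1, g2, ?_⟩
    have hs0 : 0 < hs (A : Mat) := by linarith [hs_ge A]
    have hs1 : 0 < hs ((A⁻¹ : SL) : Mat) := by linarith [hs_ge A⁻¹]
    have hX := Matrix.posSemidef_self_mul_conjTranspose ((A⁻¹ : SL) : Mat)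
    obtain ⟨a, b, z, x1, x2, x3⟩ := density_form hX hs1 (trace_AA _)
    obtain ⟨a', b', z', y1, y2, y3, y4⟩ := ps_form q1
    have y5 : a' + b' = 1 := by
      rw [y1, trace_form] at q2
      exact_mod_cast q2
    have h1 := fr_le x2 y5 x3 y4
    rw [← x1, ← y1] at h1
    have hid := id_two (A : Mat) Q
    rw [← Matrix.SpecialLinearGroup.coe_inv, trace_AA, q2, mul_one] at hid
    have h2 : (density (((A⁻¹ : SL) : Mat) * ((A⁻¹ : SL) : Mat)ᴴ) * Q).trace.re =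
        (hs (A : Mat) - ((A : Mat) * Q * (A : Mat)ᴴ).trace.re) / hs (A : Mat) := by
      unfold density
      rw [trace_AA, hs_inv, Matrix.smul_mul, Matrix.trace_smul, smul_eq_mul]
      have h3 : (((A⁻¹ : SL) : Mat) * ((A⁻¹ : SL) : Mat)ᴴ * Q).trace =
          ((hs (A : Mat) : ℝ) : ℂ) - ((A : Mat) * Q * (A : Mat)ᴴ).trace := by
        linear_combination hid
      rw [h3, ← Complex.ofReal_inv, Complex.re_ofReal_mul, Complex.sub_re, Complex.ofReal_re]
      field_simp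
    rw [h2] at h1
    have h4 : hs (A : Mat) * fr (density (((A⁻¹ : SL) : Mat) * ((A⁻¹ : SL) : Mat)ᴴ)) Q ≤
        hs (A : Mat) * (2 * (1 - (hs (A : Mat) - ((A : Mat) * Q * (A : Mat)ᴴ).trace.re) / hs (A : Mat))) :=
      mul_le_mul_of_nonneg_left h1 hs0.le
    have h5 : hs (A : Mat) * (2 * (1 - (hs (A : Mat) - ((A : Mat) * Q * (A : Mat)ᴴ).trace.re) / hs (A : Mat))) =
        2 * ((A : Mat) * Q * (A : Mat)ᴴ).trace.re := by
      field_simp
      ring
    linarith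
  · intro A P hP hP1
    exact gen A hP.posSemidef hP1

end Pool.Agent.Helper99.QD
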