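import Pool.Agent.Helper20.QD.St1

/-!
# Project QD, part B (MP_d112a4_gt): module TGE, the generation theorem of Eilenberg
-/

open Filter Topology Matrix Set Metric
open scoped ComplexConjugate ComplexOrder

namespace Pool.Agent.Helper99.QD

open Pool.Agent.Helper35.PM Pool.Agent.Helper20.QD

theorem cen_mem (s : ℤ × ℤ) : cen s ∈ sq s := by
  unfold cen Pool.Agent.Helper20.QD.sq
  simp only [Set.mem_ofPred_eq]
  refine ⟨by linarith, by linarith, by linarith, by linarith⟩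

theorem floor_cen (s : ℤ × ℤ) : (⌊(cen s).re⌋, ⌊(cen s).im⌋) = s := by
  have h : ∀ a : ℤ, ⌊((a : ℝ) + 1 / 2)⌋ = a := by
    intro a
    rw [Int.floor_eq_iff]
    constructor <;> linarith
  exact Prod.ext (h s.1) (h s.2)

theorem floor_mem (z : ℂ) : z ∈ sq (⌊z.re⌋, ⌊z.im⌋) := by
  unfold Pool.Agent.Helper20.QD.sq
  simp only [Set.mem_ofPred_eq]
  exact ⟨Int.floor_le _, (Int.lt_floor_add_one _).le, Int.floor_le _, (Int.lt_floor_add_one _).le⟩

theorem dist_sq_le {s : ℤ × ℤ} {z w : ℂ} (hz : z ∈ sq s) (hw : w ∈ sq s) : ‖z - w‖ ≤ 2 := by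
  obtain ⟨a1, a2, a3, a4⟩ := hz
  obtain ⟨b1, b2, b3, b4⟩ := hw
  have h1 := Complex.norm_le_abs_re_add_abs_im (z - w)
  have h2 : |(z - w).re| ≤ 1 := by
    rw [Complex.sub_re, abs_le]
    constructor <;> linarith
  have h3 : |(z - w).im| ≤ 1 := by
    rw [Complex.sub_im, abs_le]
    constructor <;> linarith
  linarith

/-- the squares which meet a bounded set -/
theorem finite_sq {K : Set ℂ} (hK : IsCompact K) {N : ℝ} (hN : 0 < N) :
    {s : ℤ × ℤ | ∃ k ∈ K, (N : ℂ) * k ∈ sq s}.Finite := by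
  obtain ⟨R, hR⟩ := hK.isBounded.exists_norm_le
  have key : ∀ x : ℂ, x ∈ K → |((N : ℂ) * x).re| ≤ N * R ∧ |((N : ℂ) * x).im| ≤ N * R := by
    intro x hx
    have h1 : ‖(N : ℂ) * x‖ ≤ N * R := by
      rw [norm_mul, Complex.norm_real, Real.norm_of_nonneg hN.le]
      exact mul_le_mul_of_nonneg_left (hR x hx) hN.le
    exact ⟨(Complex.abs_re_le_norm _).trans h1, (Complex.abs_im_le_norm _).trans h1⟩
  have hfin : ((Set.Icc (⌊-(N * R) - 1⌋) (⌈N * R⌉)) ×ˢ (Set.Icc (⌊-(N * R) - 1⌋) (⌈N * R⌉)) :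
      Set (ℤ × ℤ)).Finite := (Set.finite_Icc _ _).prod (Set.finite_Icc _ _)
  apply hfin.subset
  rintro s ⟨k, hk, a1, a2, a3, a4⟩
  obtain ⟨h1, h2⟩ := key k hk
  rw [abs_le] at h1 h2
  refine ⟨⟨?_, ?_⟩, ⟨?_, ?_⟩⟩
  · exact Int.floor_le_iff.2 (by linarith)
  · exact_mod_cast (a1.trans h1.2).trans (Int.le_ceil _)
  · exact Int.floor_le_iff.2 (by linarith)
  · exact_mod_cast (a3.trans h2.2).trans (Int.le_ceil _)

theorem hTGE (hTGR : StTGR) (hTPB : StTPB) : StTGE := by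
  classical
  obtain ⟨hPB, _, hmul, _, _, hcongr⟩ := hTPB
  intro K u hK hu hu0
  -- extension
  obtain ⟨U, hU⟩ := ContinuousMap.exists_restrict_eq hK.isClosed
    (⟨K.domRestrict u, hu.domRestrict⟩ : C(K, ℂ))
  have hUu : ∀ z ∈ K, U z = u z := by
    intro z hz
    have := congrArg (fun f : C(K, ℂ) => f ⟨z, hz⟩) hU
    exact this
  have hopen : IsOpen {z : ℂ | U z ≠ 0} := isOpen_ne_fun U.continuous continuous_const
  obtain ⟨ε, hε, hsub⟩ := hK.exists_thickening_subset_open hopen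
    (fun z hz => by rw [Set.mem_ofPred_eq, hUu z hz]; exact hu0 z hz)
  obtain ⟨N, hN⟩ : ∃ N : ℝ, N = 3 / ε := ⟨_, rfl⟩
  have hN0 : 0 < N := by rw [hN]; positivity
  have hNc : (N : ℂ) ≠ 0 := by exact_mod_cast hN0.ne'
  have hfin := finite_sq hK hN0
  obtain ⟨S, hS⟩ : ∃ S : Finset (ℤ × ℤ), ∀ s, s ∈ S ↔ ∃ k ∈ K, (N : ℂ) * k ∈ sq s :=
    ⟨hfin.toFinset, fun s => by rw [Set.Finite.mem_toFinset]; rfl⟩
  have hne : ∀ z ∈ ⋃ s ∈ S, sq s, U (z / N) ≠ 0 := by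
    intro z hz
    simp only [Set.mem_iUnion, exists_prop] at hz
    obtain ⟨s, hs, hz⟩ := hz
    obtain ⟨k, hk, hk2⟩ := (hS s).1 hs
    apply hsub
    rw [mem_thickening_iff]
    refine ⟨k, hk, ?_⟩
    have h1 := dist_sq_le hz hk2
    have h2 : z / N - k = (z - N * k) / N := by
      rw [sub_div, mul_div_cancel_left₀ _ hNc]
    have h3 : ε * N = 3 := by rw [hN, mul_div_cancel₀ _ hε.ne']
    rw [dist_eq_norm, h2, norm_div, Complex.norm_real, Real.norm_of_nonneg hN0.le, div_lt_iff₀ hN0, h3]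
    linarith
  obtain ⟨n, hn⟩ := hTGR S (fun z => U (z / N))
    (U.continuous.comp (continuous_id.div_const _)).continuousOn hne
  -- the points
  obtain ⟨T0, hT0⟩ : ∃ T0 : Finset (ℤ × ℤ), T0 = (S.image (fun s => (s.1 - 1, s.2))) \ S := ⟨_, rfl⟩
  have hmap : MapsTo (fun z : ℂ => (N : ℂ) * z) K (⋃ s ∈ S, sq s) := by
    intro z hz
    simp only [Set.mem_iUnion, exists_prop]
    exact ⟨_, (hS _).2 ⟨z, hz, floor_mem _⟩, floor_mem _⟩
  have h1 := hPB K _ (fun z : ℂ => (N : ℂ) * z) _ (continuous_const.mul continuous_id).continuousOn hmap hn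
  have hc : ∏ t ∈ T0, ((N : ℂ)⁻¹) ^ (n t) ≠ 0 := by
    rw [Finset.prod_ne_zero_iff]
    intro t _
    exact zpow_ne_zero _ (inv_ne_zero hNc)
  have h2 : LogOn K (fun _ : ℂ => ∏ t ∈ T0, ((N : ℂ)⁻¹) ^ (n t)) :=
    ⟨fun _ => Complex.log (∏ t ∈ T0, ((N : ℂ)⁻¹) ^ (n t)), continuousOn_const, fun _ _ =>
      (Complex.exp_log hc).symm⟩
  have h3 := hmul K _ _ h1 h2
  refine ⟨T0.image (fun t => cen t / N), fun c => n (⌊((N : ℂ) * c).re⌋, ⌊((N : ℂ) * c).im⌋), ?_, ?_⟩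
  · intro t ht htK
    obtain ⟨s, hs, rfl⟩ := Finset.mem_image.1 ht
    rw [hT0, Finset.mem_sdiff] at hs
    apply hs.2
    rw [hS]
    refine ⟨_, htK, ?_⟩
    rw [mul_div_cancel₀ _ hNc]
    exact cen_mem s
  · refine hcongr K K _ _ le_rfl h3 ?_
    intro z hz
    have hinj : Set.InjOn (fun t : ℤ × ℤ => cen t / (N : ℂ)) T0 := by
      intro s _ t _ hst
      have h4 : cen s = cen t := by
        have h5 : cen s / (N : ℂ) = cen t / (N : ℂ) := hst
        exact (div_left_inj' hNc).1 h5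
      rw [← floor_cen s, ← floor_cen t, h4]
    have h6 : ∏ t ∈ T0.image (fun t => cen t / (N : ℂ)), (z - t) ^ n (⌊((N : ℂ) * t).re⌋, ⌊((N : ℂ) * t).im⌋) =
        ∏ t ∈ T0, (z - cen t / (N : ℂ)) ^ (n t) := by
      rw [Finset.prod_image hinj]
      apply Finset.prod_congr rfl
      intro t _
      rw [mul_div_cancel₀ _ hNc, floor_cen]
    rw [h6, ← hT0, mul_assoc, ← Finset.prod_mul_distrib, mul_div_cancel_left₀ _ hNc, hUu z hz]
    congr 1
    apply Finset.prod_congr rfl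
    intro t _
    rw [← mul_zpow]
    congr 1
    field_simp

end Pool.Agent.Helper99.QD
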