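import Pool.Agent.Helper58.QD.StS

/-!
# Project QD, module RNK: rank argument on the annulus
-/

set_option autoImplicit false

open Helper62.LH Helper62.DSH Helper58.QD MeasureTheory Set Filter Topology
open scoped ContDiff ENNReal

noncomputable section

namespace Pool.Agent.Helper99.QD

theorem rnk_q2_nonneg {n j : ℕ} (t : Tn n j) : 0 ≤ q2 t := by
  unfold q2 ipt
  exact div_nonneg (Finset.sum_nonneg (fun I _ => mul_self_nonneg _)) (Nat.cast_nonneg _)

theorem rnk_q2_cont {n j : ℕ} {u : E n → Tn n j} (hu : Continuous u) :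
    Continuous (fun x => q2 (u x)) := by
  unfold q2 ipt
  refine Continuous.div_const ?_ _
  refine continuous_finsetSum _ (fun I _ => ?_)
  have h : Continuous (fun x => u x I) := (continuous_apply I).comp hu
  exact h.mul h

theorem rnk_cover {α : Type*} [MeasurableSpace α] {μ : Measure α} {ι : Type*} (Z : Finset ι)
    (B : ι → Set α) (A : Set α) (φ : α → ℝ) (hφ : ∀ x, 0 ≤ φ x) (hA : MeasurableSet A)
    (hB : ∀ z ∈ Z, MeasurableSet (B z)) (hAi : IntegrableOn φ A μ)
    (hBi : ∀ z ∈ Z, IntegrableOn φ (B z) μ) (hc : ∀ y ∈ A, ∃ z ∈ Z, y ∈ B z) :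
    ∫ x in A, φ x ∂μ ≤ ∑ z ∈ Z, ∫ x in B z, φ x ∂μ := by
  rw [← integral_indicator hA]
  have h1 : ∑ z ∈ Z, ∫ x in B z, φ x ∂μ = ∫ x, ∑ z ∈ Z, (B z).indicator φ x ∂μ := by
    rw [integral_finsetSum]
    · exact Finset.sum_congr rfl (fun z hz => (integral_indicator (hB z hz)).symm)
    · intro z hz
      exact (integrable_indicator_iff (hB z hz)).2 (hBi z hz)
  rw [h1]
  refine integral_mono ((integrable_indicator_iff hA).2 hAi)
    (integrable_finsetSum _ (fun z hz => (integrable_indicator_iff (hB z hz)).2 (hBi z hz))) ?_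
  intro y
  by_cases hy : y ∈ A
  · obtain ⟨z, hz, hyz⟩ := hc y hy
    simp only [indicator_of_mem hy]
    calc φ y = (B z).indicator φ y := (indicator_of_mem hyz φ).symm
      _ ≤ ∑ z ∈ Z, (B z).indicator φ y :=
          Finset.single_le_sum (f := fun z => (B z).indicator φ y)
            (fun w _ => indicator_nonneg (fun x _ => hφ x) y) hz
  · simp only [indicator_of_notMem hy]
    exact Finset.sum_nonneg (fun w _ => indicator_nonneg (fun x _ => hφ x) y)

theorem rnk_mult {α : Type*} [MeasurableSpace α] {μ : Measure α} {ι : Type*} (Z : Finset ι)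
    (B : ι → Set α) (A : Set α) (φ : α → ℝ) (hφ : ∀ x, 0 ≤ φ x) (hA : MeasurableSet A)
    (hB : ∀ z ∈ Z, MeasurableSet (B z)) (hAi : IntegrableOn φ A μ)
    (hs : ∀ z ∈ Z, B z ⊆ A) (K : ℕ) [∀ y, DecidablePred (fun z => y ∈ B z)]
    (hK : ∀ y, (Z.filter (fun z => y ∈ B z)).card ≤ K) :
    ∑ z ∈ Z, ∫ x in B z, φ x ∂μ ≤ K * ∫ x in A, φ x ∂μ := by
  rw [← integral_indicator hA, ← integral_const_mul]
  have h1 : ∑ z ∈ Z, ∫ x in B z, φ x ∂μ = ∫ x, ∑ z ∈ Z, (B z).indicator φ x ∂μ := by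
    rw [integral_finsetSum]
    · exact Finset.sum_congr rfl (fun z hz => (integral_indicator (hB z hz)).symm)
    · intro z hz
      exact (integrable_indicator_iff (hB z hz)).2 (hAi.mono_set (hs z hz))
  rw [h1]
  refine integral_mono
    (integrable_finsetSum _ (fun z hz => (integrable_indicator_iff (hB z hz)).2
      (hAi.mono_set (hs z hz)))) (((integrable_indicator_iff hA).2 hAi).const_mul _) ?_
  intro y
  by_cases hy : y ∈ A
  · simp only [indicator_of_mem hy]
    have h2 : ∑ z ∈ Z, (B z).indicator φ y = (Z.filter (fun z => y ∈ B z)).card * φ y := by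
      rw [← nsmul_eq_mul, ← Finset.sum_const, Finset.sum_filter]
      exact Finset.sum_congr rfl (fun z _ => by
        by_cases hz : y ∈ B z
        · simp [hz]
        · simp [hz])
    rw [h2]
    exact mul_le_mul_of_nonneg_right (by exact_mod_cast hK y) (hφ y)
  · simp only [indicator_of_notMem hy, mul_zero]
    refine (Finset.sum_eq_zero (fun z hz => ?_)).le
    exact indicator_of_notMem (fun h => hy (hs z hz h)) φ

theorem hRnk : StMet → StDlv → TNrm → TDer → SBal → SGrw → SCov → SRkb → SRnk := by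
  intro _hMet hDlv _hNrm hDer hBal hGrw hCov hRkb n j g Γ F G hg hΓ hF hC hS p b β κ₀ r0 hBus hLvl
    δ hδ hδ1
  classical
  obtain ⟨R0, hR0, hcov⟩ := hCov n g Γ hg hΓ hC hS p b β κ₀ r0 hBus hLvl
  obtain ⟨Lc, hLc⟩ := hcov δ hδ (by linarith)
  obtain ⟨_, hcomp, _⟩ := hGrw n g Γ hg p b β κ₀ r0 hBus hLvl
  obtain ⟨hvs, hvp, _⟩ := hDlv n g Γ hg hΓ
  have hvc : Continuous (vol g) := hvs.continuous
  have hβc : Continuous β := hLvl.smooth.continuous
  refine ⟨Lc * n ^ j, R0 + 7, by linarith, ?_⟩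
  intro R hR M v hv
  have hR7 : 7 ≤ R := by linarith
  have hRpos : 0 < R := by linarith
  have hρ : 0 < δ * R := mul_pos hδ hRpos
  obtain ⟨Z, hZc, hZA, hZcov, hZm⟩ := hLc R (by linarith)
  have hrk := fun z => hRkb n j g Γ F G hg hΓ hF hC hS z (δ * R) hρ M v hv
  choose xz hxz hrkz using hrk
  have hcard : Fintype.card (Z × (Fin j → Fin n)) ≤ Fintype.card (Fin (Lc * n ^ j)) := by
    simp only [Fintype.card_prod, Fintype.card_coe, Fintype.card_pi, Fintype.card_fin,
      Finset.prod_const, Finset.card_univ]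
    exact Nat.mul_le_mul_right _ hZc
  obtain ⟨e⟩ := Function.Embedding.nonempty_of_card_le hcard
  let T : (Fin M → ℝ) →ₗ[ℝ] (Z × (Fin j → Fin n) → ℝ) :=
    { toFun := fun c q => ∑ i, c i * v i (xz q.1.1) q.2
      map_add' := by
        intro c d
        funext q
        simp [add_mul, Finset.sum_add_distrib]
      map_smul' := by
        intro r c
        funext q
        simp [mul_assoc, Finset.mul_sum] }
  refine ⟨(Function.ExtendByZero.linearMap ℝ e).comp T, ?_⟩
  intro M' f hf hL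
  have hvan : ∀ z ∈ Z, ∀ a, ∑ i, f a i • v i (xz z) = 0 := by
    intro z hz a
    funext I
    have h1 := congrFun (hL a) (e (⟨z, hz⟩, I))
    simp only [LinearMap.comp_apply, Function.ExtendByZero.linearMap_apply, Pi.zero_apply] at h1
    rw [e.injective.extend_apply] at h1
    have h2 : T (f a) (⟨z, hz⟩, I) = ∑ i, f a i * v i (xz z) I := rfl
    rw [h2] at h1
    simpa [Finset.sum_apply, Pi.smul_apply, smul_eq_mul] using h1
  have hA1 : MeasurableSet (An β R (16 * R)) := (hcomp R (16 * R)).measurableSet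
  have hA2 : MeasurableSet (An β (R / 2) (32 * R)) := (hcomp (R / 2) (32 * R)).measurableSet
  have hBm : ∀ z r, MeasurableSet (Ba g z r) := fun z r =>
    ((hBal n g Γ hg hΓ hC z).1 r).measurableSet
  have hsub : ∀ z ∈ Z, Ba g z (3 * (δ * R)) ⊆ An β (R / 2) (32 * R) := by
    intro z hz y hy
    have hy' : dg g z y < 3 * (δ * R) := hy
    have hz1 := hZA z hz
    have h1 : R ≤ β z := hz1.1
    have h2 : β z ≤ 16 * R := hz1.2
    have h3 := abs_le.1 (hBus.lip z y)
    have h4 := abs_le.1 (hLvl.near z)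
    have h5 := abs_le.1 (hLvl.near y)
    have h6 : δ * R ≤ R / 16 := by nlinarith
    refine ⟨?_, ?_⟩
    · show R / 2 ≤ β y
      linarith [h3.1, h3.2, h4.1, h4.2, h5.1, h5.2]
    · show β y ≤ 32 * R
      linarith [h3.1, h3.2, h4.1, h4.2, h5.1, h5.2]
  have hsub1 : ∀ z, Ba g z (δ * R) ⊆ Ba g z (3 * (δ * R)) := by
    intro z y hy
    have hy' : dg g z y < δ * R := hy
    show dg g z y < 3 * (δ * R)
    linarith
  -- functions
  have hwc : ∀ a, Continuous (fun x => q2 (∑ i, f a i • v i x) * vol g x) := by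
    intro a
    refine (rnk_q2_cont ?_).mul hvc
    exact continuous_finsetSum _ (fun i _ => (hv i).continuous.const_smul (f a i))
  have hw0 : ∀ a x, 0 ≤ q2 (∑ i, f a i • v i x) * vol g x := fun a x =>
    mul_nonneg (rnk_q2_nonneg _) (hvp x).le
  have hhc : Continuous (fun x => (∑ i, NF F G (v i) x) * vol g x) := by
    refine Continuous.mul (continuous_finsetSum _ (fun i _ => ?_)) hvc
    unfold NF
    exact continuous_finsetSum _ (fun a _ => rnk_q2_cont
      ((((hDer n j g Γ F G hF).1 (v i) (hv i)).1 a).continuous))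
  have hh0 : ∀ x, 0 ≤ (∑ i, NF F G (v i) x) * vol g x := fun x =>
    mul_nonneg (Finset.sum_nonneg (fun i _ => Finset.sum_nonneg (fun a _ => rnk_q2_nonneg _)))
      (hvp x).le
  have hwi : ∀ a s t, IntegrableOn (fun x => q2 (∑ i, f a i • v i x) * vol g x) (An β s t) :=
    fun a s t => (hwc a).continuousOn.integrableOn_compact (hcomp s t)
  have hhi : ∀ s t, IntegrableOn (fun x => (∑ i, NF F G (v i) x) * vol g x) (An β s t) :=
    fun s t => hhc.continuousOn.integrableOn_compact (hcomp s t)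
  have hstep1 : ∀ a, ∫ x in An β R (16 * R), q2 (∑ i, f a i • v i x) * vol g x ≤
      ∑ z ∈ Z, ∫ x in Ba g z (δ * R), q2 (∑ i, f a i • v i x) * vol g x := by
    intro a
    refine rnk_cover Z (fun z => Ba g z (δ * R)) _ _ (hw0 a) hA1 (fun z _ => hBm z _) (hwi a _ _)
      (fun z hz => (hwi a (R / 2) (32 * R)).mono_set ((hsub1 z).trans (hsub z hz))) ?_
    intro y hy
    exact hZcov y hy
  have hstep2 : ∀ z ∈ Z,
      ∑ a, ∫ x in Ba g z (δ * R), q2 (∑ i, f a i • v i x) * vol g x ≤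
      4 * (δ * R) ^ 2 * 2 ^ n *
        ∫ x in Ba g z (3 * (δ * R)), (∑ i, NF F G (v i) x) * vol g x := by
    intro z hz
    exact hrkz z M' f hf (fun a => hvan z hz a)
  have hstep3 : ∑ z ∈ Z, ∫ x in Ba g z (3 * (δ * R)), (∑ i, NF F G (v i) x) * vol g x ≤
      (14 ^ n : ℕ) * ∫ x in An β (R / 2) (32 * R), (∑ i, NF F G (v i) x) * vol g x := by
    refine rnk_mult Z (fun z => Ba g z (3 * (δ * R))) _ _ hh0 hA2 (fun z _ => hBm z _) (hhi _ _)
      hsub (14 ^ n) ?_
    intro y
    exact hZm y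
  calc ∑ a, ∫ x in An β R (16 * R), q2 (∑ i, f a i • v i x) * vol g x
      ≤ ∑ a, ∑ z ∈ Z, ∫ x in Ba g z (δ * R), q2 (∑ i, f a i • v i x) * vol g x :=
        Finset.sum_le_sum (fun a _ => hstep1 a)
    _ = ∑ z ∈ Z, ∑ a, ∫ x in Ba g z (δ * R), q2 (∑ i, f a i • v i x) * vol g x :=
        Finset.sum_comm
    _ ≤ ∑ z ∈ Z, 4 * (δ * R) ^ 2 * 2 ^ n *
        ∫ x in Ba g z (3 * (δ * R)), (∑ i, NF F G (v i) x) * vol g x :=
        Finset.sum_le_sum hstep2
    _ = 4 * (δ * R) ^ 2 * 2 ^ n *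
        ∑ z ∈ Z, ∫ x in Ba g z (3 * (δ * R)), (∑ i, NF F G (v i) x) * vol g x := by
        rw [Finset.mul_sum]
    _ ≤ 4 * (δ * R) ^ 2 * 2 ^ n * ((14 ^ n : ℕ) *
        ∫ x in An β (R / 2) (32 * R), (∑ i, NF F G (v i) x) * vol g x) :=
        mul_le_mul_of_nonneg_left hstep3 (by positivity)
    _ = 4 * 28 ^ n * δ ^ 2 * R ^ 2 *
        ∫ x in An β (R / 2) (32 * R), (∑ i, NF F G (v i) x) * vol g x := by
        have h28 : (28 : ℝ) ^ n = 2 ^ n * 14 ^ n := by
          rw [← mul_pow]; norm_num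
        rw [h28]
        push_cast
        ring

end Pool.Agent.Helper99.QD
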